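import Pool.Agent.V11237.LP.Unif

set_option autoImplicit false

/-!
# Almost prime values of all admissible sets of linear forms: every exponent, and the laws of the gaps
-/

namespace Pool.Agent.Results.MP_746f10_nt.AlmostPrimeEveryExponent

open Finset Filter
open Pool.Agent.V11237

variable {k : ℕ}

/-- The forms `a i x + b i` are different and form an admissible set: `1 ≤ b i < a i` and no prime divides
the product of the values at all integers. -/
structure Admissible (a b : Fin k → ℕ) : Prop where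
  one : ∀ i, 1 ≤ b i
  lt : ∀ i, b i < a i
  ne : ∀ i j, i ≠ j → ¬ (a i = a j ∧ b i = b j)
  adm : ∀ p : ℕ, p.Prime → ∃ n : ℤ, ∀ i, ¬ (p : ℤ) ∣ a i * n + b i

/-- None of the `a i n + b i` has a prime factor `p ≤ P ^ (1 / r)`. -/
def Good (a b : Fin k → ℕ) (P r n : ℕ) : Prop :=
  ∀ p : ℕ, p.Prime → (p : ℝ) ≤ (P : ℝ) ^ (1 / (r : ℝ)) → ∀ i, ¬ p ∣ a i * n + b i

open Classical in
/-- The number of the good `n` in `(u, u + Y]` with fewer than `l` good integers in `[n - T, n)`. -/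
noncomputable def G (a b : Fin k → ℕ) (P r l T u Y : ℕ) : ℕ :=
  ((Ioc u (u + Y)).filter (fun n => Good a b P r n ∧
    ((Ico (n - T) n).filter (fun s => Good a b P r s)).card < l)).card

open Classical in
/-- The number of the residues `n` modulo `p` for which `p` divides one of the `a i n + b i`. -/
noncomputable def nu (a b : Fin k → ℕ) (p : ℕ) : ℕ :=
  ((range p).filter (fun n : ℕ => ∃ i, p ∣ a i * n + b i)).card

/-- The density: the product of `1 - nu p / p` over the primes `p ≤ P ^ (1 / r)`. -/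
noncomputable def V (a b : Fin k → ℕ) (P r : ℕ) : ℝ :=
  ∏ p ∈ (Icc 1 ⌊(P : ℝ) ^ (1 / (r : ℝ))⌋₊).filter Nat.Prime, (1 - (nu a b p : ℝ) / p)

/-- the coefficients as integers -/
def zz (a : Fin k → ℕ) : Fin k → ℤ := fun i => a i

lemma cast_form (a b : Fin k → ℕ) (i : Fin k) (n : ℕ) :
    zz a i * n + zz b i = ((a i * n + b i : ℕ) : ℤ) := by
  unfold zz
  push_cast
  ring

lemma good_iff (a b : Fin k → ℕ) (P r n : ℕ) : LP.Good (zz a) (zz b) P r n ↔ Good a b P r n := by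
  unfold LP.Good Good
  simp only [cast_form, Int.natCast_dvd_natCast]

lemma G_eq (a b : Fin k → ℕ) (P r l T u Y : ℕ) :
    LP.G (zz a) (zz b) P r l T u Y = G a b P r l T u Y := by
  classical
  unfold LP.G G
  congr 1
  ext n
  simp only [mem_filter, good_iff]

lemma nu_eq (a b : Fin k → ℕ) (p : ℕ) : LP.nu (zz a) (zz b) p = nu a b p := by
  classical
  unfold LP.nu nu
  congr 1
  apply Finset.filter_congr
  intro n _
  simp only [cast_form, Int.natCast_dvd_natCast]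

lemma V_eq (a b : Fin k → ℕ) (P r : ℕ) : LP.V (zz a) (zz b) P r = V a b P r := by
  unfold LP.V V
  simp only [nu_eq]

lemma Admissible.toAdm {a b : Fin k → ℕ} (h : Admissible a b) {N : ℕ} (hN : ∏ i, a i ≤ N) :
    LP.Adm (zz a) (zz b) ((N : ℝ) ^ (1 : ℝ)) := by
  have hpos : ∀ i, 0 < a i := fun i => by
    have := h.one i
    have := h.lt i
    omega
  have hle : ∀ i, a i ≤ N := by
    intro i
    have h1 : a i ∣ ∏ i, a i := Finset.dvd_prod_of_mem a (mem_univ i)
    exact (Nat.le_of_dvd (Finset.prod_pos fun i _ => hpos i) h1).trans hN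
  refine ⟨?_, ?_, ?_, ?_, ?_, ?_, ?_⟩
  · intro i
    unfold zz
    exact_mod_cast hpos i
  · intro i
    rw [Real.rpow_one]
    unfold zz
    exact_mod_cast hle i
  · intro i
    rw [Real.rpow_one]
    unfold zz
    rw [Int.cast_natCast, abs_of_nonneg (Nat.cast_nonneg _)]
    exact_mod_cast ((h.lt i).le.trans (hle i))
  · intro i
    unfold zz
    rw [Nat.isCoprime_iff_coprime]
    by_contra hcon
    obtain ⟨p, hp, hpa, hpb⟩ := Nat.Prime.not_coprime_iff_dvd.1 hcon
    obtain ⟨n, hn⟩ := h.adm p hp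
    apply hn i
    exact dvd_add ((Int.natCast_dvd_natCast.2 hpa).mul_right _) (Int.natCast_dvd_natCast.2 hpb)
  · intro i j hij h1 h2
    unfold zz at h1 h2
    exact h.ne i j hij ⟨by exact_mod_cast h1, by exact_mod_cast h2⟩
  · intro i j h1 t ht h2
    unfold zz at h1 h2
    have e1 : (b i : ℤ) < a i := by exact_mod_cast h.lt i
    have e2 : (b j : ℤ) < a j := by exact_mod_cast h.lt j
    have e3 : (1 : ℤ) ≤ b i := by exact_mod_cast h.one i
    have e4 : (1 : ℤ) ≤ b j := by exact_mod_cast h.one j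
    rw [h1] at e1
    have e5 : (0 : ℤ) < a j := by exact_mod_cast hpos j
    rcases lt_or_gt_of_ne ht with h3 | h3
    · have : (a j : ℤ) * t ≤ a j * (-1) := mul_le_mul_of_nonneg_left (by omega) e5.le
      linarith
    · have : (a j : ℤ) * 1 ≤ a j * t := mul_le_mul_of_nonneg_left (by omega) e5.le
      linarith
  · intro p hp
    obtain ⟨n, hn⟩ := h.adm p hp
    have hp0 : (p : ℤ) ≠ 0 := by exact_mod_cast hp.ne_zero
    refine ⟨(n % (p : ℤ)).toNat, fun i hi => hn i ?_⟩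
    rw [Int.toNat_of_nonneg (Int.emod_nonneg _ hp0)] at hi
    unfold zz at hi
    have e : (a i : ℤ) * n + b i = (a i * (n % (p : ℤ)) + b i) + p * (a i * (n / (p : ℤ))) := by
      have := Int.emod_add_mul_ediv n (p : ℤ)
      linear_combination (-(a i : ℤ)) * this
    rw [e]
    exact dvd_add hi (Dvd.intro _ rfl)

/-- few prime factors -/
lemma few {a b : Fin k → ℕ} (h : Admissible a b) {N r n : ℕ} (hr : 1 ≤ r) (hN : ∏ i, a i ≤ N)
    (hN3 : (3 : ℝ) ≤ (N : ℝ) ^ (1 / (r : ℝ))) (hn : n ≤ 2 * N) (hg : Good a b N r n) (i : Fin k) :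
    (a i * n + b i).primeFactorsList.length ≤ 2 * r + 1 := by
  have hpos : ∀ i, 0 < a i := fun i => by
    have := h.one i
    have := h.lt i
    omega
  have hle : a i ≤ N := by
    have h1 : a i ∣ ∏ i, a i := Finset.dvd_prod_of_mem a (mem_univ i)
    exact (Nat.le_of_dvd (Finset.prod_pos fun i _ => hpos i) h1).trans hN
  have hr0 : (0 : ℝ) < r := by exact_mod_cast hr
  have hN0 : (0 : ℝ) ≤ N := Nat.cast_nonneg _
  have hpow : ((N : ℝ) ^ (1 / (r : ℝ))) ^ r = N := by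
    rw [← Real.rpow_natCast, ← Real.rpow_mul hN0, one_div, inv_mul_cancel₀ hr0.ne', Real.rpow_one]
  apply Pool.Agent.Y879.GL.few_of_rough ((N : ℝ) ^ (1 / (r : ℝ))) (by linarith)
  · have := h.one i
    omega
  · have e1 : ((N : ℝ) ^ (1 / (r : ℝ))) ^ (2 * r + 1) = N * N * (N : ℝ) ^ (1 / (r : ℝ)) := by
      rw [pow_succ, mul_comm 2 r, pow_mul, hpow]
      ring
    rw [e1]
    have e2 : a i * n + b i ≤ N * N * 3 := by
      have h1 : a i * n ≤ N * (2 * N) := Nat.mul_le_mul hle hn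
      have h2 : b i ≤ N := (h.lt i).le.trans hle
      have h3 : 1 ≤ N := by
        have := hpos i
        omega
      nlinarith
    have e3 : ((a i * n + b i : ℕ) : ℝ) ≤ N * N * 3 := by exact_mod_cast e2
    refine e3.trans ?_
    exact mul_le_mul_of_nonneg_left hN3 (by positivity)
  · intro q hq hqd
    by_contra hcon
    rw [not_lt] at hcon
    exact hg q hq hcon i hqd

/-- **Theorem.** Let `k ≥ 2` and `θ > 0`.
(1) There are `R` and `γ > 0` such that for EVERY admissible set of `k` linear forms `a i x + b i` there is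
`n ≤ γ (∏ a i) ^ θ` such that all the `a i n + b i` have at most `R` prime factors.
(2) For all `l₀`, `x₀` and `ε > 0` there is `r₀` such that for all `r ≥ r₀` there is `P₀` such that for EVERY
admissible set of `k` forms with `P = ∏ a i ≥ P₀`: if `n ≤ P` is good, all `a i n + b i` have at most
`2 r + 1` prime factors; `V > 0`; and in EVERY interval `(u, u + Y]` with `Y ≥ P ^ θ`, for all `l`, `T` with
`l ≤ l₀` or `T V ≤ x₀`, the number of the good `n` with fewer than `l` good integers in `[n - T, n)` is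
`Y V ∑_{j < l} e ^ (-T V) (T V) ^ j / j!` up to at most `ε Y V`. -/
theorem result (hk : 2 ≤ k) (θ : ℝ) (hθ : 0 < θ) :
    (∃ (R : ℕ) (γ : ℝ), 0 < γ ∧ ∀ a b : Fin k → ℕ, Admissible a b →
      ∃ n : ℕ, (n : ℝ) ≤ γ * ((∏ i, a i : ℕ) : ℝ) ^ θ ∧
        ∀ i, (a i * n + b i).primeFactorsList.length ≤ R) ∧
    ∀ (l₀ : ℕ) (x₀ ε : ℝ), 0 < ε → ∃ r₀ : ℕ, 2 ≤ r₀ ∧ ∀ r : ℕ, r₀ ≤ r → ∃ P₀ : ℕ,
      ∀ a b : Fin k → ℕ, Admissible a b → ∀ P : ℕ, P = ∏ i, a i → P₀ ≤ P →
        (∀ n : ℕ, n ≤ P → Good a b P r n →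
          ∀ i, (a i * n + b i).primeFactorsList.length ≤ 2 * r + 1) ∧ 0 < V a b P r ∧
        ∀ u Y : ℕ, (P : ℝ) ^ θ ≤ Y → ∀ l T : ℕ, (l ≤ l₀ ∨ T * V a b P r ≤ x₀) →
          |(G a b P r l T u Y : ℝ) - Y * V a b P r *
            ∑ j ∈ range l, Real.exp (-(T * V a b P r)) * (T * V a b P r) ^ j / j.factorial| ≤
          ε * (Y * V a b P r) := by
  classical
  have hz : ∀ r : ℕ, 1 ≤ r → ∃ N₁ : ℕ, ∀ N : ℕ, N₁ ≤ N → (3 : ℝ) ≤ (N : ℝ) ^ (1 / (r : ℝ)) := by
    intro r hr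
    have hr0 : (0 : ℝ) < r := by exact_mod_cast hr
    exact eventually_atTop.1
      (((tendsto_rpow_atTop (show (0 : ℝ) < 1 / r by positivity)).comp
        tendsto_natCast_atTop_atTop).eventually_ge_atTop (3 : ℝ))
  constructor
  · -- existence
    obtain ⟨θ', hθ'⟩ : ∃ θ', θ' = min θ 1 := ⟨_, rfl⟩
    have hθ'0 : 0 < θ' := by rw [hθ']; exact lt_min hθ one_pos
    have hθ'1 : θ' ≤ 1 := by rw [hθ']; exact min_le_right _ _
    have hθ'θ : θ' ≤ θ := by rw [hθ']; exact min_le_left _ _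
    obtain ⟨r0, hr0, h0⟩ := LP.gap_unif hk 1 θ' one_pos hθ'0 1 0 (1 / 2) (by norm_num)
    obtain ⟨N0, hN0⟩ := h0 r0 le_rfl
    obtain ⟨N1, hN1⟩ := hz r0 (by omega)
    obtain ⟨M, hM⟩ : ∃ M : ℕ, M = N0 + N1 + 1 := ⟨_, rfl⟩
    have hM1 : (1 : ℝ) ≤ M := by exact_mod_cast (by omega : 1 ≤ M)
    refine ⟨2 * r0 + 1, 2 * (M : ℝ) ^ θ', by positivity, ?_⟩
    intro a b hab
    have hpos : ∀ i, 0 < a i := fun i => by
      have := hab.one i
      have := hab.lt i
      omega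
    obtain ⟨P, hP⟩ : ∃ P : ℕ, P = ∏ i, a i := ⟨_, rfl⟩
    rw [← hP]
    have hP1 : 1 ≤ P := by
      rw [hP]
      exact Finset.prod_pos fun i _ => hpos i
    have hP1r : (1 : ℝ) ≤ P := by exact_mod_cast hP1
    obtain ⟨N, hN⟩ : ∃ N : ℕ, N = M * P := ⟨_, rfl⟩
    have hNM : M ≤ N := by rw [hN]; exact Nat.le_mul_of_pos_right _ hP1
    have hNP : P ≤ N := by rw [hN]; exact Nat.le_mul_of_pos_left _ (by omega)
    have hNr : (1 : ℝ) ≤ N := by exact_mod_cast (by omega : 1 ≤ N)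
    obtain ⟨Y, hY⟩ : ∃ Y : ℕ, Y = ⌈(N : ℝ) ^ θ'⌉₊ := ⟨_, rfl⟩
    have hNθ1 : (1 : ℝ) ≤ (N : ℝ) ^ θ' := Real.one_le_rpow hNr hθ'0.le
    have hY1 : (N : ℝ) ^ θ' ≤ Y := by rw [hY]; exact Nat.le_ceil _
    have hY2 : (Y : ℝ) ≤ 2 * (N : ℝ) ^ θ' := by
      have := Nat.ceil_lt_add_one (by positivity : 0 ≤ (N : ℝ) ^ θ')
      rw [← hY] at this
      linarith
    have hadm := hab.toAdm (N := N) (by rw [← hP]; exact hNP)
    have hgap := hN0 N (by omega) (zz a) (zz b) hadm 0 Y hY1 1 0 (Or.inl le_rfl)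
    have hVpos := hadm.Vpos N r0
    simp only [Nat.cast_zero, zero_mul, neg_zero, Real.exp_zero, range_one, sum_singleton, pow_zero,
      Nat.factorial_zero, Nat.cast_one, mul_one, div_one] at hgap
    have hGpos : (0 : ℝ) < LP.G (zz a) (zz b) N r0 1 0 0 Y := by
      obtain ⟨e1, e2⟩ := abs_le.1 hgap
      have h3 : 0 < (Y : ℝ) * LP.V (zz a) (zz b) N r0 := by
        apply mul_pos _ hVpos
        linarith
      linarith
    have hGpos' : 0 < LP.G (zz a) (zz b) N r0 1 0 0 Y := by exact_mod_cast hGpos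
    unfold LP.G at hGpos'
    obtain ⟨n, hn⟩ := Finset.card_pos.1 hGpos'
    rw [mem_filter, mem_Ioc] at hn
    obtain ⟨⟨hn1, hn2⟩, hn3, -⟩ := hn
    have hnY : n ≤ Y := by omega
    refine ⟨n, ?_, ?_⟩
    · calc (n : ℝ) ≤ Y := by exact_mod_cast hnY
        _ ≤ 2 * (N : ℝ) ^ θ' := hY2
        _ = 2 * (M : ℝ) ^ θ' * (P : ℝ) ^ θ' := by
          rw [hN]
          push_cast
          rw [Real.mul_rpow (by positivity) (by positivity)]
          ring
        _ ≤ 2 * (M : ℝ) ^ θ' * (P : ℝ) ^ θ := by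
          apply mul_le_mul_of_nonneg_left _ (by positivity)
          exact Real.rpow_le_rpow_of_exponent_le hP1r hθ'θ
    · intro i
      refine few hab (N := N) (by omega) (by rw [← hP]; exact hNP) (hN1 N (by omega)) ?_
        ((good_iff a b N r0 n).1 hn3) i
      have h5 : (n : ℝ) ≤ 2 * N := by
        calc (n : ℝ) ≤ Y := by exact_mod_cast hnY
          _ ≤ 2 * (N : ℝ) ^ θ' := hY2
          _ ≤ 2 * (N : ℝ) ^ (1 : ℝ) := by
            apply mul_le_mul_of_nonneg_left _ (by norm_num)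
            exact Real.rpow_le_rpow_of_exponent_le hNr hθ'1
          _ = 2 * N := by rw [Real.rpow_one]
      exact_mod_cast h5
  · intro l₀ x₀ ε hε
    obtain ⟨r0, hr0, h0⟩ := LP.gap_unif hk 1 θ one_pos hθ l₀ x₀ ε hε
    refine ⟨r0, hr0, ?_⟩
    intro r hr
    obtain ⟨N0, hN0⟩ := h0 r hr
    obtain ⟨N1, hN1⟩ := hz r (by omega)
    refine ⟨N0 + N1, ?_⟩
    intro a b hab P hP hPP
    have hadm := hab.toAdm (N := P) (by rw [hP])
    refine ⟨?_, ?_, ?_⟩
    · intro n hn hg i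
      exact few hab (by omega) (by rw [hP]) (hN1 P (by omega)) (by omega) hg i
    · rw [← V_eq]
      exact hadm.Vpos P r
    · intro u Y hY l T hlT
      have h := hN0 P (by omega) (zz a) (zz b) hadm u Y hY l T (by rw [V_eq]; exact hlT)
      rw [V_eq, G_eq] at h
      exact h

end Pool.Agent.Results.MP_746f10_nt.AlmostPrimeEveryExponent
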