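import Pool.Agent.H225.VL

/-!
# Admissible sets of linear forms at integers with restricted digits, uniformly in the forms

Let `g ≥ 2` be a base and let the digits of an integer `n < g^K` be restricted: the `i`-th digit belongs
to a set `D i`, where the sets `D i` are arbitrary, depend on the place `i < K`, and have the only
property that the number `∏ |D i|` of these integers is at least `e^{-δK} g^K`, where the constant
`δ > 0` does not depend on `g`.  (For example one digit may be excluded at every place if `g` is large;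
or a positive proportion of the digits may be fixed.)  Let `a_1 x + b_1, …, a_k x + b_k` be ANY
admissible set of linear forms with coefficients up to an arbitrary fixed power `g^{EK}` of `g^K`.  The
number of these `n` for which all `a_i n + b_i` are prime should be of the order of magnitude `V ∏ |D i|`
(if the last digit can be chosen such that all `a_i n + b_i` are prime to `g`), where `V` is the product
over the primes `p ≤ g^K` of `1 - ν(p) / p`, and `ν(p)` is the number of the `n` modulo `p` for which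
`p` divides one of the `a_i n + b_i`; here `V ≥ κ / K^k`.

We show that this is an upper bound, and a lower bound for the number of the `n` such that all
`a_i n + b_i` have at most `r` prime factors, all of them larger than `g^{K/r}`.

The method is a Brun–Hooley sieve with weights, whose level of distribution is obtained from the Fourier
transform of the set of the integers with restricted digits at rationals (large sieve in blocks of
digits), see `Pool/Agent/Y816/PD`.
-/

set_option autoImplicit false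

namespace Pool.Agent.Results.MP_746f10_nt.RestrictedDigits

open Finset Filter

variable {k : ℕ}

/-- The forms `a i x + b i` are different and form an admissible set: `1 ≤ b i < a i` and no prime
divides the product of the values at all integers. -/
structure Admissible (a b : Fin k → ℕ) : Prop where
  one : ∀ i, 1 ≤ b i
  lt : ∀ i, b i < a i
  ne : ∀ i j, i ≠ j → ¬ (a i = a j ∧ b i = b j)
  adm : ∀ p : ℕ, p.Prime → ∃ n : ℤ, ∀ i, ¬ (p : ℤ) ∣ a i * n + b i

open Classical in
/-- The number of the residues `n` modulo `p` for which `p` divides one of the `a i n + b i`. -/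
noncomputable def nu (a b : Fin k → ℕ) (p : ℕ) : ℕ :=
  ((range p).filter (fun n : ℕ => ∃ i, p ∣ a i * n + b i)).card

/-- The product of `1 - nu p / p` over the primes `p ≤ x`. -/
noncomputable def V (a b : Fin k → ℕ) (x : ℕ) : ℝ :=
  ∏ p ∈ (Icc 1 x).filter Nat.Prime, (1 - (nu a b p : ℝ) / p)

open Classical in
/-- The number of the `n < g ^ K` in `T` whose `i`-th digit in base `g` belongs to `D i` for all
`i < K`. -/
noncomputable def count (g K : ℕ) (D : ℕ → Finset ℕ) (T : Set ℕ) : ℕ :=
  ((range (g ^ K)).filter (fun n => (∀ i < K, n / g ^ i % g ∈ D i) ∧ n ∈ T)).card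

/-- The number of choices of the digits. -/
noncomputable def choices (K : ℕ) (D : ℕ → Finset ℕ) : ℝ := ∏ i ∈ range K, ((D i).card : ℝ)

/-- `m` has at most `r` prime factors, counted with multiplicity, and all of them are larger than
`z ^ (1 / r)`. -/
def AlmostPrime (r z m : ℕ) : Prop :=
  (∀ p : ℕ, p.Prime → p ∣ m → z < p ^ r) ∧ m.primeFactorsList.length ≤ r

open Pool.Agent.Y816.PD (WG NA ND ND_sub)

/-- the values of the forms -/
def F (a b : Fin k → ℕ) (i : Fin k) (n : ℕ) : ℤ := ((a i * n + b i : ℕ) : ℤ)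

lemma dvd_F (a b : Fin k → ℕ) {p : ℕ} (hp : p.Prime) (n : ℕ) :
    (p : ℤ) ∣ ∏ i, F a b i n ↔ ∃ i, p ∣ a i * n + b i := by
  rw [Pool.Agent.H225.DG.dvd_prod_iff (fun i => F a b i n) hp]
  exact exists_congr fun i => Int.natCast_dvd_natCast

lemma WG_eq (a b : Fin k → ℕ) (x : ℕ) : WG (fun n => ∏ i, F a b i n) x = V a b x := by
  classical
  unfold WG V nu
  refine prod_congr rfl fun p hp => ?_
  have hpp := (mem_filter.1 hp).2
  have e : (range p).filter (fun n : ℕ => (p : ℤ) ∣ ∏ i, F a b i n) =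
      (range p).filter (fun n : ℕ => ∃ i, p ∣ a i * n + b i) :=
    filter_congr fun n _ => dvd_F a b hpp n
  simp only [e]

/-- no prime divides both coefficients of a form -/
lemma not_both {a b : Fin k → ℕ} (h : Admissible a b) {p : ℕ} (hp : p.Prime) (i : Fin k)
    (ha : p ∣ a i) : ¬ p ∣ b i := by
  intro hb
  obtain ⟨n, hn⟩ := h.adm p hp
  exact hn i (dvd_add ((Int.natCast_dvd_natCast.2 ha).mul_right _) (Int.natCast_dvd_natCast.2 hb))

open Classical in
lemma nu_le {a b : Fin k → ℕ} (h : Admissible a b) {p : ℕ} (hp : p.Prime) : nu a b p ≤ k := by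
  have h1 : (range p).filter (fun n : ℕ => ∃ i, p ∣ a i * n + b i) ⊆
      univ.biUnion (fun i : Fin k => (range p).filter (fun n : ℕ => p ∣ a i * n + b i)) := by
    intro n hn
    rw [mem_filter] at hn
    obtain ⟨i, hi⟩ := hn.2
    rw [mem_biUnion]
    exact ⟨i, mem_univ _, mem_filter.2 ⟨hn.1, hi⟩⟩
  have h2 : ∀ i : Fin k, ((range p).filter (fun n : ℕ => p ∣ a i * n + b i)).card ≤ 1 := by
    intro i
    rw [card_le_one]
    intro x hx y hy
    rw [mem_filter, mem_range] at hx hy
    have hcop : Nat.Coprime p (a i) := (Nat.Prime.coprime_iff_not_dvd hp).2 fun ha =>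
      not_both h hp i ha ((Nat.dvd_add_right (ha.mul_right _)).1 hx.2)
    have h3 : a i * x + b i ≡ a i * y + b i [MOD p] :=
      (Nat.modEq_zero_iff_dvd.2 hx.2).trans (Nat.modEq_zero_iff_dvd.2 hy.2).symm
    have h4 : x ≡ y [MOD p] :=
      Nat.ModEq.cancel_left_of_coprime hcop (Nat.ModEq.add_right_cancel' _ h3)
    unfold Nat.ModEq at h4
    rwa [Nat.mod_eq_of_lt hx.1, Nat.mod_eq_of_lt hy.1] at h4
  unfold nu
  calc ((range p).filter (fun n : ℕ => ∃ i, p ∣ a i * n + b i)).card
      ≤ (univ.biUnion (fun i : Fin k => (range p).filter (fun n : ℕ => p ∣ a i * n + b i))).card :=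
        card_le_card h1
    _ ≤ ∑ i : Fin k, ((range p).filter (fun n : ℕ => p ∣ a i * n + b i)).card := card_biUnion_le
    _ ≤ ∑ _i : Fin k, 1 := sum_le_sum fun i _ => h2 i
    _ = k := by simp

/-- a good residue class -/
lemma exists_nat {a b : Fin k → ℕ} (h : Admissible a b) {p : ℕ} (hp : p.Prime) :
    ∃ n : ℕ, n < p ∧ ∀ i, ¬ p ∣ a i * n + b i := by
  obtain ⟨n, hn⟩ := h.adm p hp
  have hp0 : (p : ℤ) ≠ 0 := by exact_mod_cast hp.pos.ne'
  have hpos : (0 : ℤ) < p := by exact_mod_cast hp.pos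
  have h1 : 0 ≤ n % p := Int.emod_nonneg n hp0
  have h2 : n % p < p := Int.emod_lt_of_pos n hpos
  refine ⟨(n % p).toNat, by omega, fun i hi => hn i ?_⟩
  have h3 : ((p : ℕ) : ℤ) ∣ ((a i * (n % p).toNat + b i : ℕ) : ℤ) := Int.natCast_dvd_natCast.2 hi
  push_cast at h3
  rw [Int.toNat_of_nonneg h1] at h3
  have h4 : (p : ℤ) ∣ n - n % p := Int.dvd_self_sub_emod
  have h5 := dvd_add h3 (h4.mul_left (a i : ℤ))
  have e : (a i : ℤ) * (n % p) + b i + a i * (n - n % p) = a i * n + b i := by ring
  rwa [e] at h5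

open Classical in
lemma nu_lt {a b : Fin k → ℕ} (h : Admissible a b) {p : ℕ} (hp : p.Prime) : nu a b p < p := by
  obtain ⟨n, hn, hn'⟩ := exists_nat h hp
  unfold nu
  refine lt_of_lt_of_eq (card_lt_card ?_) (card_range p)
  rw [filter_ssubset]
  exact ⟨n, mem_range.2 hn, fun ⟨i, hi⟩ => hn' i hi⟩

/-- **Admissible sets of linear forms at integers with restricted digits.** -/
theorem result (k E : ℕ) (hk : 1 ≤ k) :
    ∃ δ : ℝ, 0 < δ ∧ ∃ r₀ : ℕ, 2 ≤ r₀ ∧ ∀ r : ℕ, r₀ ≤ r → ∀ g : ℕ, 2 ≤ g →
      ∃ κ C : ℝ, 0 < κ ∧ 0 < C ∧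
      ∀ᶠ K : ℕ in atTop, ∀ a b : Fin k → ℕ, Admissible a b → (∀ i, a i ≤ g ^ (E * K)) →
        ∀ D : ℕ → Finset ℕ, (∀ i < K, D i ⊆ range g) →
        (g : ℝ) ^ K ≤ Real.exp (δ * K) * choices K D →
        κ / (K : ℝ) ^ k ≤ V a b (g ^ K) ∧
        ((∃ d ∈ D 0, ∀ i, (a i * d + b i).Coprime g) → (∃ d ∈ D (K - 1), d ≠ 0) →
          κ * choices K D * V a b (g ^ K) ≤ count g K D {n | g ^ (K - 1) ≤ n ∧
            ∀ i, AlmostPrime r (g ^ K) (a i * n + b i)}) ∧
        (count g K D {n | ∀ i, (a i * n + b i).Prime} : ℝ) ≤ C * choices K D * V a b (g ^ K) := by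
  classical
  obtain ⟨δ, hδ, r₀, hr₀, h⟩ := Pool.Agent.H225.DG.gen k 1 (E + 2) hk le_rfl
  refine ⟨δ, hδ, r₀, hr₀, fun r hr g hg => ?_⟩
  obtain ⟨κ, C, hκ, hC, h1⟩ := h r hr g hg
  obtain ⟨v, hv, hW⟩ := Pool.Agent.H225.VL.lower k g hk hg
  refine ⟨min κ v, C, lt_min hκ hv, hC, ?_⟩
  filter_upwards [h1, hW, eventually_ge_atTop 1] with K hK hWK hK1 a b hadm ha A hA hprod
  have hgK : 2 ≤ g ^ K := hg.trans (Nat.le_self_pow (by omega) g)
  have hpoly : ∀ i, ∃ P : Polynomial ℤ, P.natDegree ≤ 1 ∧
      ∀ n : ℕ, P.eval (n : ℤ) = F a b i n := fun i =>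
    ⟨Polynomial.C (a i : ℤ) * Polynomial.X + Polynomial.C (b i : ℤ), Polynomial.natDegree_linear_le,
      fun n => by simp [F]⟩
  have hadm' : ∀ p : ℕ, p.Prime → ∃ n : ℕ, ∀ i, ¬ (p : ℤ) ∣ F a b i n := by
    intro p hp
    obtain ⟨n, -, hn⟩ := exists_nat hadm hp
    exact ⟨n, fun i hi => hn i (Int.natCast_dvd_natCast.1 hi)⟩
  have hsize : ∀ n : ℕ, n < g ^ K → ∀ i, (F a b i n).natAbs ≤ g ^ ((E + 2) * K) := by
    intro n hn i
    unfold F
    rw [Int.natAbs_natCast]
    have e : g ^ ((E + 2) * K) = g ^ (E * K) * g ^ K * g ^ K := by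
      rw [← pow_add, ← pow_add]
      congr 1
      ring
    rw [e]
    have h4 : a i * n ≤ g ^ (E * K) * g ^ K := Nat.mul_le_mul (ha i) hn.le
    have h5 : g ^ (E * K) ≤ g ^ (E * K) * g ^ K := Nat.le_mul_of_pos_right _ (by omega)
    have h6 : g ^ (E * K) * g ^ K * 2 ≤ g ^ (E * K) * g ^ K * g ^ K := Nat.mul_le_mul_left _ hgK
    have h7 := hadm.lt i
    have h8 := ha i
    omega
  obtain ⟨h2, h3⟩ := hK (F a b) hpoly hadm' hsize A hA hprod
  rw [WG_eq] at h2 h3
  have hVlow : v / (K : ℝ) ^ k ≤ V a b (g ^ K) := by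
    rw [← WG_eq]
    have e : ∀ p : ℕ, p.Prime →
        ((range p).filter (fun n : ℕ => (p : ℤ) ∣ ∏ i, F a b i n)).card = nu a b p := by
      intro p hp
      unfold nu
      congr 1
      exact filter_congr fun n _ => dvd_F a b hp n
    refine hWK _ (fun p hp => ?_) (fun p hp => ?_)
    · convert nu_le hadm hp
      convert e p hp
    · have h5 := nu_lt hadm hp
      convert h5
      convert e p hp
  have hNA : 0 ≤ choices K A := by
    unfold choices
    exact prod_nonneg fun i _ => Nat.cast_nonneg _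
  have hV0 : 0 ≤ V a b (g ^ K) := le_trans (by positivity) hVlow
  refine ⟨le_trans ?_ hVlow, ?_, ?_⟩
  · exact div_le_div_of_nonneg_right (min_le_right _ _) (by positivity)
  · rintro ⟨d, hd, hcop⟩ htop
    refine le_trans ?_ ((h2 ⟨d, hd, fun i => ?_⟩ htop).trans (Nat.cast_le.2 ?_))
    · exact mul_le_mul_of_nonneg_right (mul_le_mul_of_nonneg_right (min_le_left _ _) hNA) hV0
    · unfold F
      rw [Int.natAbs_natCast]
      exact hcop i
    · refine ND_sub fun n _ hn1 hn2 => ⟨hn1, hn2.1, fun i => ?_⟩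
      have := hn2.2 i
      unfold F at this
      rw [Int.natAbs_natCast] at this
      exact this
  · refine le_trans (Nat.cast_le.2 ?_) h3
    refine ND_sub fun n _ hn1 hn2 => ⟨hn1, fun i => ?_⟩
    have hp0 : (a i * n + b i).Prime := hn2 i
    unfold F
    rw [Int.natAbs_natCast]
    refine ⟨hp0, ?_⟩
    have h5 : a i * n + b i < (a i * n + b i) ^ 2 := by nlinarith [hp0.two_le]
    have h6 : (a i * n + b i) ^ 2 ≤ (a i * n + b i) ^ r :=
      Nat.pow_le_pow_right hp0.pos (by omega)
    have h7 : n ≤ a i * n := Nat.le_mul_of_pos_left n (by have := hadm.lt i; omega)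
    omega

end Pool.Agent.Results.MP_746f10_nt.RestrictedDigits
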