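import Pool.Agent.V1137.Wsys
import Pool.Agent.Results.MP_746f10_nt.AlmostAllSystems

/-!
# Almost prime values of ALL systems of linear forms near almost every point

Let `a_i x + b_i`, `i ≤ k`, be arbitrary systems of linear forms, one for each `n`, of polynomial height in `v_n`
(for example `v_n = 2 ^ n`), and let `θ < 1 / (k + 1)`. For almost all real vectors `(α, β)` and all large `n`, ALL
admissible systems obtained from the `n`-th system by adding to the coefficients `a_i`, `b_i` natural numbers in the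
windows `α_i v_n ± v_n ^ θ`, `β_i v_n ± v_n ^ θ` have the expected number of `m ≤ X_n` for which all the values have
at most `r` prime factors, all of them at least `X_n ^ w`. Here `X_n` is any power of the height; `r` does not depend
on the length `k + 1` of the system, for example `r = 4` if the height is at most `X_n ^ C`, `C < 1/4`.

The starting result `AlmostAllSystems` has this for all but few systems of every family of linear forms.
-/

set_option autoImplicit false

open Finset Filter MeasureTheory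

namespace Pool.Agent.Results.MP_746f10_nt.WindowsOfSystems

open AlmostAllSystems (Admissible count)

/-- The system of the forms `(a_i + s_i) x + (b_i + t_i)`, `i ≤ k`, for the given system `base i = (a_i, b_i)` and the
perturbations `s_i` (the first `k + 1` entries of `t`) and `t_i` (the last `k + 1` entries of `t`). -/
def system {k : ℕ} (base : Fin (k + 1) → ℕ × ℕ) (t : Fin ((k + 1) + (k + 1)) → ℕ) : Finset (ℕ × ℕ) :=
  univ.image fun i => ((base i).1 + t (Fin.castAdd (k + 1) i), (base i).2 + t (Fin.natAdd (k + 1) i))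

/-- all the forms which can occur -/
def forms {k : ℕ} (base : Fin (k + 1) → ℕ × ℕ) (T : ℕ) : Finset (ℕ × ℕ) :=
  (univ ×ˢ (range (T + 1) ×ˢ range (T + 1))).image
    fun x : Fin (k + 1) × (ℕ × ℕ) => ((base x.1).1 + x.2.1, (base x.1).2 + x.2.2)

lemma forms_card {k : ℕ} (base : Fin (k + 1) → ℕ × ℕ) (T : ℕ) : (forms base T).card ≤ (k + 1) * (T + 1) ^ 2 := by
  unfold forms
  refine card_image_le.trans ?_
  rw [card_product, card_product, card_range, card_univ, Fintype.card_fin]
  exact le_of_eq (by ring)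

lemma system_sub {k : ℕ} (base : Fin (k + 1) → ℕ × ℕ) (T : ℕ) {t : Fin ((k + 1) + (k + 1)) → ℕ}
    (ht : ∀ i, t i ≤ T) : system base t ⊆ forms base T := by
  intro f hf
  unfold system at hf
  obtain ⟨i, -, rfl⟩ := mem_image.1 hf
  unfold forms
  refine mem_image.2 ⟨(i, (t (Fin.castAdd (k + 1) i), t (Fin.natAdd (k + 1) i))), ?_, rfl⟩
  simp only [mem_product, mem_univ, mem_range, true_and]
  exact ⟨Nat.lt_succ_of_le (ht _), Nat.lt_succ_of_le (ht _)⟩

open Classical in
/-- each system comes from few perturbations -/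
lemma fiber {k : ℕ} (base : Fin (k + 1) → ℕ × ℕ) (S : Finset (Fin ((k + 1) + (k + 1)) → ℕ)) (H : Finset (ℕ × ℕ))
    (hH : H.card = k + 1) : (S.filter fun t => system base t = H).card ≤ (k + 1) ^ (k + 1) := by
  have hcard : (Fintype.piFinset fun _ : Fin (k + 1) => H).card = (k + 1) ^ (k + 1) := by
    rw [Fintype.card_piFinset]
    simp [hH]
  rw [← hcard]
  refine card_le_card_of_injOn (fun t i => ((base i).1 + t (Fin.castAdd (k + 1) i),
    (base i).2 + t (Fin.natAdd (k + 1) i))) ?_ ?_
  · intro t ht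
    rw [mem_coe, mem_filter] at ht
    rw [mem_coe, Fintype.mem_piFinset]
    intro i
    rw [← ht.2]
    exact mem_image_of_mem _ (mem_univ i)
  · intro t _ t' _ h
    funext j
    refine Fin.addCases (fun i => ?_) (fun i => ?_) j
    · have := congrFun h i
      rw [Prod.mk.injEq] at this
      omega
    · have := congrFun h i
      rw [Prod.mk.injEq] at this
      omega

open Classical in
/-- the number of exceptional perturbations -/
lemma bad_count {k : ℕ} (base : Fin (k + 1) → ℕ × ℕ) (T : ℕ) (Q : Finset (ℕ × ℕ) → Prop) {K : ℝ}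
    (hQ : ((((forms base T).powersetCard (k + 1)).filter Q).card : ℝ) ≤ K) :
    ({t : Fin ((k + 1) + (k + 1)) → ℕ | (∀ i, t i ≤ T) ∧ (system base t).card = k + 1 ∧
      Q (system base t)}.ncard : ℝ) ≤ (k + 1) ^ (k + 1) * K := by
  obtain ⟨S, hS⟩ : ∃ S : Finset (Fin ((k + 1) + (k + 1)) → ℕ), S =
      (Fintype.piFinset fun _ => range (T + 1)).filter fun t =>
        (system base t).card = k + 1 ∧ Q (system base t) := ⟨_, rfl⟩
  have hset : {t : Fin ((k + 1) + (k + 1)) → ℕ | (∀ i, t i ≤ T) ∧ (system base t).card = k + 1 ∧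
      Q (system base t)} = (S : Set (Fin ((k + 1) + (k + 1)) → ℕ)) := by
    rw [hS]
    ext t
    simp only [coe_filter, Fintype.mem_piFinset, mem_range, Nat.lt_succ_iff]
  rw [hset, Set.ncard_coe_finset]
  have h1 : S.card ≤ (k + 1) ^ (k + 1) * (((forms base T).powersetCard (k + 1)).filter Q).card := by
    refine card_le_mul_card_image_of_maps_to (f := fun t => system base t) ?_ _ ?_
    · intro t ht
      rw [hS, mem_filter, Fintype.mem_piFinset] at ht
      obtain ⟨h1, h2, h3⟩ := ht
      rw [mem_filter, mem_powersetCard]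
      refine ⟨⟨system_sub base T fun i => ?_, h2⟩, h3⟩
      have := h1 i
      rw [mem_range] at this
      omega
    · intro H hH
      rw [mem_filter, mem_powersetCard] at hH
      exact fiber base S H hH.1.2
  calc (S.card : ℝ) ≤ ((k + 1) ^ (k + 1) * (((forms base T).powersetCard (k + 1)).filter Q).card : ℕ) := by
        exact_mod_cast h1
    _ = (k + 1) ^ (k + 1) * ((((forms base T).powersetCard (k + 1)).filter Q).card : ℝ) := by push_cast; ring
    _ ≤ _ := mul_le_mul_of_nonneg_left hQ (by positivity)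

/-- `v n ≥ 1` and all the sums of `v n ^ (-s)`, `s > 0`, converge; for example `v n = b ^ n`, `b > 1`. -/
def Fast (v : ℕ → ℝ) : Prop := (∀ n, 1 ≤ v n) ∧ ∀ s : ℝ, 0 < s → Summable fun n : ℕ => (v n) ^ (-s)

lemma Fast.large {v : ℕ → ℝ} (hv : Fast v) (Y : ℝ) : ∃ n₁ : ℕ, ∀ n : ℕ, n₁ ≤ n → Y ≤ v n := by
  have h1 := (hv.2 1 one_pos).tendsto_atTop_zero
  have h2 := h1.eventually (gt_mem_nhds (show (0 : ℝ) < 1 / (|Y| + 1) by positivity))
  obtain ⟨n₁, hn₁⟩ := eventually_atTop.1 h2
  refine ⟨n₁, fun n hn => ?_⟩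
  have h3 := hn₁ n hn
  have h4 : 0 < v n := lt_of_lt_of_le one_pos (hv.1 n)
  rw [Real.rpow_neg h4.le, Real.rpow_one, ← one_div, one_div_lt_one_div h4 (by positivity)] at h3
  exact ((le_abs_self Y).trans (by linarith)).trans h3.le

/-- **Theorem.** Let `C > 0`, `0 < w < 1/4` and let `r` be a natural number with `w (r + 1) > C + 1` (for example
`r = 4`, if `C < 1/4` and `w` is close to `1/4`). For every `k` there is `c > 0` such that for all real `D`, all fast
sequences `v_n`, all `X_n` with `v_n ≤ X_n ^ C` and `X_n ≤ v_n ^ D`, all sequences of systems of `k + 1` linear forms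
with natural coefficients up to `X_n ^ C`, and all `θ < 1 / (k + 1)`: for almost all real vectors `α` and all large
`n`, EVERY admissible system of `k + 1` different forms, which is obtained from the `n`-th system by adding to the
coefficients natural numbers `t_i` with `|t_i - α_i v_n| ≤ v_n ^ θ`, has at least `c X_n / (log X_n) ^ (k + 1)`
natural numbers `m ≤ X_n` such that all values at `m` have at most `r` prime factors, all of them at least
`X_n ^ w`. -/
theorem result (k : ℕ) (C w : ℝ) (hC : 0 < C) (hw : 0 < w) (hw4 : w < 1 / 4) (r : ℕ)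
    (hr : C + 1 < w * (r + 1)) : ∃ c : ℝ, 0 < c ∧
      ∀ (D : ℝ) (v : ℕ → ℝ), Fast v → ∀ (X : ℕ → ℕ) (base : ℕ → Fin (k + 1) → ℕ × ℕ),
      (∀ n, v n ≤ (X n : ℝ) ^ C ∧ (X n : ℝ) ≤ v n ^ D ∧
        ∀ i, ((base n i).1 : ℝ) ≤ (X n : ℝ) ^ C ∧ ((base n i).2 : ℝ) ≤ (X n : ℝ) ^ C) →
      ∀ θ : ℝ, θ < 1 / (k + 1) → ∀ᵐ α : Fin ((k + 1) + (k + 1)) → ℝ, ∃ n₀ : ℕ, ∀ n : ℕ, n₀ ≤ n →
        ∀ t : Fin ((k + 1) + (k + 1)) → ℕ, (∀ i, |(t i : ℝ) - α i * v n| ≤ v n ^ θ) →
          (system (base n) t).card = k + 1 → Admissible (system (base n) t) →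
          c * (X n / Real.log (X n) ^ (k + 1)) ≤ count w r (X n) (system (base n) t) := by
  classical
  obtain ⟨C₁, hC₁⟩ : ∃ C₁ : ℝ, C₁ = (C + (w * (r + 1) - 1)) / 2 := ⟨_, rfl⟩
  have hCC : C < C₁ := by rw [hC₁]; linarith
  have hCr : C₁ + 1 < w * (r + 1) := by rw [hC₁]; linarith
  obtain ⟨c, hc, B, X₀, hmain⟩ := AlmostAllSystems.result k C₁ w (by linarith) hw hw4 r hCr
  refine ⟨c, hc, fun D v hv X base hX θ hθ => ?_⟩
  have hk1 : (0 : ℝ) < (k : ℝ) + 1 := by positivity
  have hθk : (k + 1) * θ < 1 := by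
    rw [lt_div_iff₀ hk1] at hθ
    linarith
  have hθ1 : θ ≤ 1 := by
    by_contra h
    push Not at h
    have : (k : ℝ) ≥ 0 := Nat.cast_nonneg k
    nlinarith
  obtain ⟨s, hs⟩ : ∃ s : ℝ, s = 1 - (k + 1) * θ := ⟨_, rfl⟩
  have hs0 : 0 < s := by rw [hs]; linarith
  obtain ⟨e, he⟩ : ∃ e : ℝ, e = s / (B + 1) := ⟨_, rfl⟩
  have he0 : 0 < e := by rw [he]; positivity
  have heB : e * B ≤ s := by
    rw [he, div_mul_eq_mul_div, div_le_iff₀ (by positivity)]
    nlinarith [(Nat.cast_nonneg B : (0 : ℝ) ≤ B)]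
  have hmain2 := Pool.Agent.V1137.Wsys.ae_scale
    (fun n => {t : Fin ((k + 1) + (k + 1)) → ℕ | (system (base n) t).card = k + 1 ∧
      (Admissible (system (base n) t) ∧
        (count w r (X n) (system (base n) t) : ℝ) < c * (X n / Real.log (X n) ^ (k + 1)))})
    (c := 2 - s) hv.1 hv.2 (fun A => by
      obtain ⟨Y, hY⟩ : ∃ Y : ℝ, Y = max (max (X₀ : ℝ) 2) (((A : ℝ) + 2) ^ (1 / (C₁ - C))) := ⟨_, rfl⟩
      have hY0 : 0 < Y := by
        rw [hY]
        exact lt_of_lt_of_le two_pos ((le_max_right _ _).trans (le_max_left _ _))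
      obtain ⟨n₁, hn₁⟩ := hv.large (Y ^ C)
      refine ⟨(k + 1) ^ (k + 1) * ((((k : ℝ) + 1) * ((A : ℝ) + 2) ^ 2) ^ k * (|D| / e) ^ B), n₁, ?_⟩
      intro n hn T hT1 hTA
      have hA0 : (0 : ℝ) ≤ A := Nat.cast_nonneg A
      have hv1 := hv.1 n
      have hv0 : 0 < v n := lt_of_lt_of_le one_pos hv1
      obtain ⟨g1, g2, g3⟩ := hX n
      have hXY : Y ≤ X n := by
        by_contra h
        push Not at h
        have h1 : (X n : ℝ) ^ C < Y ^ C := Real.rpow_lt_rpow (Nat.cast_nonneg _) h hC
        have h2 := hn₁ n hn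
        linarith
      have hX0 : X₀ ≤ X n := by
        have h1 : (X₀ : ℝ) ≤ Y := by rw [hY]; exact (le_max_left _ _).trans (le_max_left _ _)
        exact_mod_cast h1.trans hXY
      have hX2 : (2 : ℝ) ≤ X n := by
        have h1 : (2 : ℝ) ≤ Y := by rw [hY]; exact (le_max_right _ _).trans (le_max_left _ _)
        exact h1.trans hXY
      have hXA : (A : ℝ) + 2 ≤ (X n : ℝ) ^ (C₁ - C) := by
        have h1 : ((A : ℝ) + 2) ^ (1 / (C₁ - C)) ≤ X n := by
          refine le_trans ?_ hXY
          rw [hY]; exact le_max_right _ _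
        have h2 := Real.rpow_le_rpow (by positivity) h1 (sub_pos.2 hCC).le
        rwa [← Real.rpow_mul (by positivity), one_div, inv_mul_cancel₀ (sub_pos.2 hCC).ne', Real.rpow_one] at h2
      have hXC0 : 0 < (X n : ℝ) ^ C := Real.rpow_pos_of_pos (by linarith) C
      have hcoef : ∀ a b : ℕ, (a : ℝ) ≤ (X n : ℝ) ^ C → b ≤ T → ((a + b : ℕ) : ℝ) ≤ (X n : ℝ) ^ C₁ := by
        intro a b ha hb
        have h1 : (b : ℝ) ≤ ((A : ℝ) + 1) * (X n : ℝ) ^ C := by
          calc (b : ℝ) ≤ T := by exact_mod_cast hb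
            _ ≤ ((A : ℝ) + 1) * v n := hTA
            _ ≤ _ := mul_le_mul_of_nonneg_left g1 (by positivity)
        have h2 : (X n : ℝ) ^ C₁ = (X n : ℝ) ^ (C₁ - C) * (X n : ℝ) ^ C := by
          rw [← Real.rpow_add (by linarith)]
          congr 1
          ring
        rw [h2]
        push_cast
        calc (a : ℝ) + b ≤ ((A : ℝ) + 2) * (X n : ℝ) ^ C := by linarith
          _ ≤ _ := mul_le_mul_of_nonneg_right hXA hXC0.le
      have hcount := hmain (X n) hX0 (forms (base n) T) (by
        intro f hf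
        unfold forms at hf
        obtain ⟨⟨i, a, b⟩, hx, rfl⟩ := mem_image.1 hf
        simp only [mem_product, mem_univ, mem_range, true_and] at hx
        exact ⟨hcoef _ _ (g3 i).1 (Nat.lt_succ_iff.1 hx.1), hcoef _ _ (g3 i).2 (Nat.lt_succ_iff.1 hx.2)⟩)
      have hb := bad_count (base n) T (fun H => Admissible H ∧
        (count w r (X n) H : ℝ) < c * (X n / Real.log (X n) ^ (k + 1))) (by convert hcount)
      refine le_trans hb ?_
      have hL0 : 0 ≤ Real.log (X n) := Real.log_nonneg (by linarith)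
      have hlog : Real.log (X n) ≤ |D| / e * v n ^ e := by
        have h1 : Real.log (X n) ≤ D * Real.log (v n) := by
          rw [← Real.log_rpow hv0]
          exact Real.log_le_log (by linarith) g2
        have h2 : Real.log (v n) ≤ v n ^ e / e := Real.log_le_rpow_div hv0.le he0
        have h3 : 0 ≤ Real.log (v n) := Real.log_nonneg hv1
        calc Real.log (X n) ≤ D * Real.log (v n) := h1
          _ ≤ |D| * Real.log (v n) := mul_le_mul_of_nonneg_right (le_abs_self D) h3
          _ ≤ |D| * (v n ^ e / e) := mul_le_mul_of_nonneg_left h2 (abs_nonneg D)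
          _ = _ := by ring
      have hlogB : Real.log (X n) ^ B ≤ (|D| / e) ^ B * v n ^ s := by
        calc Real.log (X n) ^ B ≤ (|D| / e * v n ^ e) ^ B := pow_le_pow_left₀ hL0 hlog B
          _ = (|D| / e) ^ B * v n ^ (e * B) := by
              rw [mul_pow, Real.rpow_mul hv0.le, Real.rpow_natCast]
          _ ≤ _ := mul_le_mul_of_nonneg_left (Real.rpow_le_rpow_of_exponent_le hv1 heB) (by positivity)
      have hcard : ((forms (base n) T).card : ℝ) ≤ ((k : ℝ) + 1) * ((A : ℝ) + 2) ^ 2 * v n ^ 2 := by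
        have h1 : ((forms (base n) T).card : ℝ) ≤ (k + 1) * ((T : ℝ) + 1) ^ 2 := by
          exact_mod_cast forms_card (base n) T
        have h2 : (T : ℝ) + 1 ≤ ((A : ℝ) + 2) * v n := by nlinarith
        calc ((forms (base n) T).card : ℝ) ≤ (k + 1) * ((T : ℝ) + 1) ^ 2 := h1
          _ ≤ (k + 1) * (((A : ℝ) + 2) * v n) ^ 2 := by gcongr
          _ = _ := by ring
      have hchoose : ((forms (base n) T).card.choose k : ℝ) ≤
          (((k : ℝ) + 1) * ((A : ℝ) + 2) ^ 2) ^ k * v n ^ (2 * (k : ℝ)) := by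
        have h1 : ((forms (base n) T).card.choose k : ℝ) ≤ ((forms (base n) T).card : ℝ) ^ k := by
          exact_mod_cast Nat.choose_le_pow _ _
        have h2 : v n ^ (2 * (k : ℝ)) = (v n ^ 2) ^ k := by
          rw [Real.rpow_mul hv0.le, Real.rpow_natCast]
          norm_num
        rw [h2, ← mul_pow]
        exact h1.trans (pow_le_pow_left₀ (Nat.cast_nonneg _) hcard k)
      have hexp : v n ^ ((((k + 1) + (k + 1) : ℕ) : ℝ) - (2 - s)) = v n ^ (2 * (k : ℝ)) * v n ^ s := by
        rw [← Real.rpow_add hv0]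
        congr 1
        push_cast
        ring
      rw [hexp]
      calc ((k : ℝ) + 1) ^ (k + 1) * (((forms (base n) T).card.choose k : ℝ) * Real.log (X n) ^ B) ≤
            (k + 1) ^ (k + 1) * (((((k : ℝ) + 1) * ((A : ℝ) + 2) ^ 2) ^ k * v n ^ (2 * (k : ℝ))) *
              ((|D| / e) ^ B * v n ^ s)) := by
            gcongr
        _ = _ := by ring)
    hθ1 (by push_cast; rw [hs]; linarith)
  filter_upwards [hmain2] with α hα
  obtain ⟨n₀, hn₀⟩ := hα
  refine ⟨n₀, fun n hn t ht hcard hadm => ?_⟩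
  by_contra h
  push Not at h
  exact hn₀ n hn t ht ⟨hcard, hadm, h⟩

end Pool.Agent.Results.MP_746f10_nt.WindowsOfSystems
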